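import Pool.Agent.H27.L1.H69.GK.T1
import Pool.Agent.H27.L1.H14.GHK.PWR
import Pool.Agent.H27.L1.H68.GHK.Defs

/-!
Page ghk (MP_52e316_nt), row JKZ: the oscillating integral with respect to the Haar measure from the
oscillating integral with respect to the Lebesgue measure (helper91).
-/

set_option autoImplicit false

namespace Pool.Agent.H27.L1.H91.GHK

open MeasureTheory Pool.Agent.H27.L1.H40.GHK Pool.Agent.H27.L1.H69.GK Pool.Agent.H27.L1.H14.GHK
open Pool.Agent.H27.L1.H34.GM hiding bt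
open Pool.Agent.H27.L1.H68.GHK (EP bt Gg)

/-- the cutoff of helper16 -/
noncomputable def ct (m : ℕ) (A : ℕ) (r : ℝ) (z : V m) : ℝ :=
  if fsq (mt z - 1) < r ^ 2 then (1 - fsq (mt z - 1) / r ^ 2) ^ A else 0

/-- the oscillating integral, form of helper16 -/
def T_JKG : Prop := ∀ m : ℕ, 1 ≤ m → ∃ r : ℝ, 0 < r ∧ r ≤ 1 / (4 * m) ∧ ∀ (A : ℕ) (M : ℝ),
  ∃ C : ℝ, 0 < C ∧ ∀ mu : Fin m → ℂ, (∀ j, |(mu j).re| ≤ M) → Monotone (fun j => (mu j).im) →
    ∀ w w' : Mat m, w.det ≠ 0 → w'.det ≠ 0 →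
      ‖∫ z : V m, (ct m A r z : ℂ) * ((pw mu (mt z * w) / pw mu w) *
        (starRingEnd ℂ) (pw mu (mt z * w') / pw mu w'))‖ ≤ C * ((1 + Gg mu w w') ^ A)⁻¹

theorem det_ne {m : ℕ} {z : Mat m} (h : fsq (z - 1) < 1) : z.det ≠ 0 := by
  intro h0
  obtain ⟨v, hv, hz⟩ := Matrix.exists_mulVec_eq_zero_iff.2 h0
  have h1 : (z - 1).mulVec v = -v := by
    rw [Matrix.sub_mulVec, hz, Matrix.one_mulVec, zero_sub]
  have h2 : ∀ i, v i ^ 2 ≤ (∑ j, (z - 1) i j ^ 2) * ∑ j, v j ^ 2 := by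
    intro i
    have h3 := congrFun h1 i
    have h4 : v i ^ 2 = (∑ j, (z - 1) i j * v j) ^ 2 := by
      have h5 : ∑ j, (z - 1) i j * v j = -v i := h3
      rw [h5, neg_sq]
    rw [h4]
    exact Finset.sum_mul_sq_le_sq_mul_sq _ _ _
  have h3 : ∑ i, v i ^ 2 ≤ fsq (z - 1) * ∑ j, v j ^ 2 := by
    calc ∑ i, v i ^ 2 ≤ ∑ i, (∑ j, (z - 1) i j ^ 2) * ∑ j, v j ^ 2 :=
          Finset.sum_le_sum fun i _ => h2 i
      _ = fsq (z - 1) * ∑ j, v j ^ 2 := by rw [← Finset.sum_mul]; rfl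
  have h4 : 0 < ∑ j, v j ^ 2 := by
    obtain ⟨i, hi⟩ : ∃ i, v i ≠ 0 := by
      by_contra hh
      push Not at hh
      exact hv (funext hh)
    exact Finset.sum_pos' (fun j _ => sq_nonneg _) ⟨i, Finset.mem_univ i, by positivity⟩
  nlinarith

theorem mnr_zero' {m : ℕ} (z : Mat m) : mnr z 0 = 1 := by
  unfold mnr
  rw [dif_pos (Nat.zero_le m), Matrix.det_isEmpty]

theorem mnr_last' {m : ℕ} (z : Mat m) : mnr z m = z.det ^ 2 := by
  unfold mnr
  rw [dif_pos le_rfl]
  have h1 : (z.transpose * z).submatrix (Fin.castLE (le_refl m)) (Fin.castLE (le_refl m)) =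
      z.transpose * z := rfl
  rw [h1, Matrix.det_mul, Matrix.det_transpose, sq]

theorem tele {m : ℕ} {z : Mat m} (hz : z.det ≠ 0) (n : ℕ) (hn : n ≤ m) :
    ∏ j ∈ Finset.range n, mnr z (j + 1) / mnr z j = mnr z n := by
  induction n with
  | zero => rw [Finset.prod_range_zero, mnr_zero']
  | succ n ih =>
    rw [Finset.prod_range_succ, ih (by omega)]
    have := (mnr_pos hz (by omega : n ≤ m)).ne'
    field_simp

/-- a real shift of the parameters -/
theorem pw_shift {m : ℕ} (mu : Fin m → ℂ) (c : ℝ) {z : Mat m} (hz : z.det ≠ 0) :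
    pw (fun j => mu j + (c : ℂ)) z = pw mu z * ((|z.det| ^ (-c) : ℝ) : ℂ) := by
  have hpos : ∀ j : Fin m, 0 < mnr z ((j : ℕ) + 1) / mnr z (j : ℕ) := fun j =>
    div_pos (mnr_pos hz j.2) (mnr_pos hz j.2.le)
  have h1 : ∀ j : Fin m, ((mnr z ((j : ℕ) + 1) / mnr z (j : ℕ) : ℝ) : ℂ) ^
      ((-(mu j + (c : ℂ)) + (2 * ((j : ℕ) + 1 : ℂ) - m - 1) / 2) / 2) =
      ((mnr z ((j : ℕ) + 1) / mnr z (j : ℕ) : ℝ) : ℂ) ^
        ((-(mu j) + (2 * ((j : ℕ) + 1 : ℂ) - m - 1) / 2) / 2) *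
      (((mnr z ((j : ℕ) + 1) / mnr z (j : ℕ)) ^ (-c / 2) : ℝ) : ℂ) := by
    intro j
    rw [Complex.ofReal_cpow (hpos j).le, ← Complex.cpow_add _ _
      (Complex.ofReal_ne_zero.2 (hpos j).ne')]
    congr 1
    push_cast
    ring
  unfold pw
  rw [Finset.prod_congr rfl fun j _ => h1 j, Finset.prod_mul_distrib, ← Complex.ofReal_prod,
    Real.finsetProd_rpow _ _ (fun j _ => (hpos j).le),
    Fin.prod_univ_eq_prod_range (fun j => mnr z (j + 1) / mnr z j) m, tele hz m le_rfl,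
    mnr_last']
  congr 2
  rw [← sq_abs, ← Real.rpow_natCast, ← Real.rpow_mul (abs_nonneg _)]
  congr 1
  push_cast
  ring

theorem mnr_orth {m : ℕ} {k : Mat m} (hk : k * k.transpose = 1) {j : ℕ} (hj : j ≤ m) :
    mnr k j = 1 := by
  have hk2 : k.transpose * k = 1 := mul_eq_one_comm.mp hk
  unfold mnr
  rw [dif_pos hj, hk2, Matrix.submatrix_one _ (Fin.castLE_injective hj), Matrix.det_one]

theorem pw_orth {m : ℕ} (mu : Fin m → ℂ) {k : Mat m} (hk : k * k.transpose = 1) :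
    pw mu k = 1 := by
  unfold pw
  refine Finset.prod_eq_one fun j _ => ?_
  rw [mnr_orth hk j.2, mnr_orth hk j.2.le, div_one, Complex.ofReal_one, Complex.one_cpow]

theorem orth_det' {m : ℕ} {k : Mat m} (hk : k * k.transpose = 1) : k.det ≠ 0 := by
  have h1 := congrArg Matrix.det hk
  rw [Matrix.det_mul, Matrix.det_transpose, Matrix.det_one] at h1
  intro h0
  rw [h0, mul_zero] at h1
  exact zero_ne_one h1

theorem EP_orth {m : ℕ} {k : Mat m} (hk : k * k.transpose = 1) {j : ℕ} (hj : j ≤ m) :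
    EP j k = Ek k j := by
  have hk2 : k.transpose * k = 1 := mul_eq_one_comm.mp hk
  have h1 : (k.submatrix id (Fin.castLE hj)).transpose * (k.submatrix id (Fin.castLE hj)) = 1 := by
    have h2 : (k.submatrix id (Fin.castLE hj)).transpose * (k.submatrix id (Fin.castLE hj)) =
        (k.transpose * k).submatrix (Fin.castLE hj) (Fin.castLE hj) := rfl
    rw [h2, hk2, Matrix.submatrix_one _ (Fin.castLE_injective hj)]
  unfold EP
  rw [dif_pos hj, h1, inv_one, Matrix.mul_one]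
  ext a b
  unfold Ek cflag
  rw [Matrix.mul_apply, Matrix.mul_apply]
  simp only [Matrix.mul_diagonal, Matrix.transpose_apply, Matrix.submatrix_apply, id_eq]
  have h3 : ∀ l : Fin m, k a l * (if (l : ℕ) < j then (1 : ℝ) else 0) * k b l =
      (fun n : ℕ => if n < j then (if h : n < m then k a ⟨n, h⟩ * k b ⟨n, h⟩ else 0) else 0)
        (l : ℕ) := by
    intro l
    show _ = if (l : ℕ) < j then (if h : (l : ℕ) < m then k a ⟨l, h⟩ * k b ⟨l, h⟩ else 0) else 0
    rw [dif_pos l.2]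
    split_ifs <;> simp
  have h4 : ∀ l : Fin j, k a (Fin.castLE hj l) * k b (Fin.castLE hj l) =
      (fun n : ℕ => if h : n < m then k a ⟨n, h⟩ * k b ⟨n, h⟩ else 0) (l : ℕ) := by
    intro l
    show _ = if h : (l : ℕ) < m then k a ⟨l, h⟩ * k b ⟨l, h⟩ else 0
    rw [dif_pos (l.2.trans_le hj)]
    rfl
  rw [Finset.sum_congr rfl fun l _ => h3 l, Finset.sum_congr rfl fun l _ => h4 l,
    Fin.sum_univ_eq_sum_range (fun n : ℕ => if n < j then
      (if h : n < m then k a ⟨n, h⟩ * k b ⟨n, h⟩ else 0) else 0) m,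
    Fin.sum_univ_eq_sum_range (fun n : ℕ => if h : n < m then k a ⟨n, h⟩ * k b ⟨n, h⟩ else 0) j,
    ← Finset.sum_filter]
  congr 1
  ext n
  simp only [Finset.mem_filter, Finset.mem_range]
  omega

theorem sqrt_fsq_le {m : ℕ} (X : Mat m) : Real.sqrt (fsq X) ≤ m * sz X := by
  have hs : 0 ≤ sz X := norm_nonneg _
  rw [Real.sqrt_le_left (by positivity)]
  unfold fsq
  calc ∑ i, ∑ j, X i j ^ 2 ≤ ∑ _i : Fin m, ∑ _j : Fin m, sz X ^ 2 := by
        refine Finset.sum_le_sum fun i _ => Finset.sum_le_sum fun j _ => ?_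
        rw [← sq_abs]
        exact pow_le_pow_left₀ (abs_nonneg _) (sz_ent X i j) 2
    _ = (m * sz X) ^ 2 := by
        simp only [Finset.sum_const, Finset.card_univ, Fintype.card_fin, nsmul_eq_mul]
        ring

theorem bt_nn {m : ℕ} {mu : Fin m → ℂ} (h : Monotone fun j => (mu j).im) (j : ℕ) :
    0 ≤ bt mu j := by
  unfold bt
  split_ifs with h1
  · have h2 : (mu ⟨j - 1, by omega⟩).im ≤ (mu ⟨j, h1.2⟩).im := h (by
      rw [Fin.mk_le_mk]
      omega)
    linarith
  · exact le_rfl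

theorem Gg_nn {m : ℕ} {mu : Fin m → ℂ} (h : Monotone fun j => (mu j).im) (w w' : Mat m) :
    0 ≤ Gg mu w w' :=
  Finset.sum_nonneg fun j _ => mul_nonneg (bt_nn h j) (norm_nonneg _)

theorem dens_meas (m : ℕ) :
    Measurable fun z : V m => ENNReal.ofReal ((|(mt z).det| ^ m)⁻¹) := by
  have h1 : Continuous fun z : V m => (mt z).det := by
    refine Continuous.matrix_det ?_
    exact continuous_id
  exact ((h1.measurable.abs.pow_const m).inv).ennreal_ofReal

/-- JKZ -/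
theorem pf_JKZ (hJ : T_JKG) : T_JKZ := by
  intro m hm1
  obtain ⟨r, hr0, hr, h⟩ := hJ m hm1
  have hm0 : (1 : ℝ) ≤ m := by exact_mod_cast hm1
  have hr4 : r ≤ 1 / 4 := by
    refine hr.trans ?_
    exact one_div_le_one_div_of_le (by norm_num) (by linarith)
  refine ⟨r, hr0, by linarith, fun A M => ?_⟩
  obtain ⟨C, hC, hh⟩ := h A (M + m / 2)
  refine ⟨C * (m : ℝ) ^ A, by positivity, fun mu hmu hmon k k' hk hk' => ?_⟩
  have hG := Gg_nn hmon k k'
  have hG' : 0 ≤ (m : ℝ) * Gg mu k k' := by positivity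
  refine ⟨m * Gg mu k k', hG', ?_, ?_⟩
  · intro p q hpq
    have hq1 : 1 ≤ (q : ℕ) ∧ (q : ℕ) < m := ⟨by omega, q.2⟩
    have h1 : bt mu (q : ℕ) = ((mu q).im - (mu p).im) / 2 := by
      unfold bt
      rw [dif_pos hq1]
      have h2 : (⟨(q : ℕ) - 1, by omega⟩ : Fin m) = p := by
        ext
        show (q : ℕ) - 1 = p
        omega
      rw [h2]
    have h3 : bt mu (q : ℕ) * sz (EP (q : ℕ) k - EP (q : ℕ) k') ≤ Gg mu k k' :=
      Finset.single_le_sum (f := fun j => bt mu j * sz (EP j k - EP j k'))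
        (fun j _ => mul_nonneg (bt_nn hmon j) (norm_nonneg _)) (Finset.mem_range.2 q.2)
    rw [EP_orth hk q.2.le, EP_orth hk' q.2.le] at h3
    rw [← h1]
    calc bt mu (q : ℕ) * Real.sqrt (fsq (Ek k q - Ek k' q))
        ≤ bt mu (q : ℕ) * (m * sz (Ek k q - Ek k' q)) :=
          mul_le_mul_of_nonneg_left (sqrt_fsq_le _) (bt_nn hmon _)
      _ = m * (bt mu (q : ℕ) * sz (Ek k q - Ek k' q)) := by ring
      _ ≤ m * Gg mu k k' := mul_le_mul_of_nonneg_left h3 (by positivity)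
  · set mu' : Fin m → ℂ := fun j => mu j + ((m / 2 : ℝ) : ℂ) with hmu'
    have him : ∀ j, (mu' j).im = (mu j).im := fun j => by
      rw [hmu']
      show (mu j + ((m / 2 : ℝ) : ℂ)).im = _
      rw [Complex.add_im, Complex.ofReal_im, add_zero]
    have hre : ∀ j, |(mu' j).re| ≤ M + m / 2 := fun j => by
      rw [hmu']
      show |(mu j + ((m / 2 : ℝ) : ℂ)).re| ≤ _
      rw [Complex.add_re, Complex.ofReal_re]
      refine (abs_add_le _ _).trans (add_le_add (hmu j) ?_)
      rw [abs_of_nonneg (by positivity)]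
    have hmon' : Monotone fun j => (mu' j).im := by
      simp only [him]
      exact hmon
    have hGg : Gg mu' k k' = Gg mu k k' := by
      unfold Gg bt
      simp only [him]
    have h1 := hh mu' hre hmon' k k' (orth_det' hk) (orth_det' hk')
    rw [hGg, pw_orth mu' hk, pw_orth mu' hk'] at h1
    have h2 : ∫ z : V m, ((et A r (mt z) : ℝ) : ℂ) * (pw mu (mt z * k) *
        (starRingEnd ℂ) (pw mu (mt z * k'))) ∂(hm m) =
        ∫ z : V m, (ct m A r z : ℂ) * ((pw mu' (mt z * k) / 1) *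
          (starRingEnd ℂ) (pw mu' (mt z * k') / 1)) := by
      unfold hm
      rw [integral_withDensity_eq_integral_toReal_smul (dens_meas m)
        (Filter.Eventually.of_forall fun z => ENNReal.ofReal_lt_top)]
      refine integral_congr_ae (Filter.Eventually.of_forall fun z => ?_)
      show (ENNReal.ofReal ((|(mt z).det| ^ m)⁻¹)).toReal • (((et A r (mt z) : ℝ) : ℂ) *
        (pw mu (mt z * k) * (starRingEnd ℂ) (pw mu (mt z * k')))) =
        (ct m A r z : ℂ) * ((pw mu' (mt z * k) / 1) *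
          (starRingEnd ℂ) (pw mu' (mt z * k') / 1))
      rw [ENNReal.toReal_ofReal (by positivity), div_one, div_one]
      unfold et ct
      by_cases hz : fsq (mt z - 1) < r ^ 2
      · rw [if_pos hz]
        have hd : (mt z).det ≠ 0 := det_ne (hz.trans_le (by nlinarith))
        have hdk : (mt z * k).det ≠ 0 := by
          rw [Matrix.det_mul]
          exact mul_ne_zero hd (orth_det' hk)
        have hdk' : (mt z * k').det ≠ 0 := by
          rw [Matrix.det_mul]
          exact mul_ne_zero hd (orth_det' hk')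
        have hak : |(mt z * k).det| = |(mt z).det| := by
          rw [Matrix.det_mul, abs_mul, orth_det hk, mul_one]
        have hak' : |(mt z * k').det| = |(mt z).det| := by
          rw [Matrix.det_mul, abs_mul, orth_det hk', mul_one]
        rw [hmu', pw_shift mu _ hdk, pw_shift mu _ hdk', hak, hak', map_mul,
          Complex.conj_ofReal, Complex.real_smul]
        have hp : 0 < |(mt z).det| := abs_pos.2 hd
        have h5 : (|(mt z).det| ^ m)⁻¹ =
            |(mt z).det| ^ (-((m : ℝ) / 2)) * |(mt z).det| ^ (-((m : ℝ) / 2)) := by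
          rw [← Real.rpow_add hp, ← Real.rpow_natCast, ← Real.rpow_neg hp.le]
          congr 1
          ring
        rw [h5]
        push_cast
        ring
      · rw [if_neg hz, Complex.ofReal_zero, zero_mul, zero_mul, smul_zero]
    rw [h2]
    refine h1.trans ?_
    have h3 : (1 + (m : ℝ) * Gg mu k k') ^ A ≤ (m : ℝ) ^ A * (1 + Gg mu k k') ^ A := by
      rw [← mul_pow]
      exact pow_le_pow_left₀ (by positivity) (by nlinarith) _
    have h4 : ((1 + Gg mu k k') ^ A)⁻¹ ≤ (m : ℝ) ^ A * ((1 + (m : ℝ) * Gg mu k k') ^ A)⁻¹ := by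
      rw [inv_le_iff_one_le_mul₀ (by positivity)]
      rw [mul_comm _ ((1 + Gg mu k k') ^ A), ← mul_assoc, mul_comm ((1 + Gg mu k k') ^ A),
        ← div_eq_mul_inv, one_le_div (by positivity)]
      exact h3
    calc C * ((1 + Gg mu k k') ^ A)⁻¹
        ≤ C * ((m : ℝ) ^ A * ((1 + (m : ℝ) * Gg mu k k') ^ A)⁻¹) :=
          mul_le_mul_of_nonneg_left h4 hC.le
      _ = C * (m : ℝ) ^ A * ((1 + (m : ℝ) * Gg mu k k') ^ A)⁻¹ := by ring

end Pool.Agent.H27.L1.H91.GHK
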